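import Pool.Agent.Y300.LC.Stm

/-!
Functoriality of the formal linearisation; the coefficients are polynomials in the parameters and
commute with complex conjugation.
-/

set_option autoImplicit false

open PowerSeries
open scoped ComplexConjugate

namespace Pool.Agent.Y50.LC

open Pool.Agent.Y300.LC

variable {R R' : Type} [CommRing R] [CommRing R']

theorem derivative_map (f : R →+* R') (F : PowerSeries R) :
    derivative R' (PowerSeries.map f F) = PowerSeries.map f (derivative R F) := by
  ext n
  rw [coeff_derivative, coeff_map, coeff_map, coeff_derivative, map_mul, map_add, map_natCast,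
    map_one]

theorem isSol_map (f : R →+* R') (N : ℕ) (p q : R) (F : PowerSeries R) (h : IsSol N p q F) :
    IsSol N (f p) (f q) (PowerSeries.map f F) := by
  obtain ⟨h0, h1, h2⟩ := h
  refine ⟨?_, ?_, ?_⟩
  · rw [← coeff_zero_eq_constantCoeff_apply, coeff_map, coeff_zero_eq_constantCoeff_apply, h0,
      map_zero]
  · rw [coeff_map, h1, map_one]
  · rw [derivative_map]
    have h3 := congrArg (PowerSeries.map f) h2
    simpa only [map_mul, map_add, map_pow, PowerSeries.map_X, PowerSeries.map_C] using h3

theorem constantCoeff_derivative (F : PowerSeries R) (h : coeff 1 F = 1) :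
    constantCoeff (derivative R F) = ((1 : Rˣ) : R) := by
  rw [← coeff_zero_eq_constantCoeff_apply, coeff_derivative, zero_add, h]
  simp

theorem inv_map (f : R →+* R') (F : PowerSeries R) (h : coeff 1 F = 1) :
    PowerSeries.map f (invOfUnit (derivative R F) 1) =
      invOfUnit (derivative R' (PowerSeries.map f F)) 1 := by
  have h' : coeff 1 (PowerSeries.map f F) = 1 := by rw [coeff_map, h, map_one]
  have e1 : PowerSeries.map f (invOfUnit (derivative R F) 1) *
      derivative R' (PowerSeries.map f F) = 1 := by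
    rw [derivative_map, ← map_mul, invOfUnit_mul _ _ (constantCoeff_derivative F h), map_one]
  have e2 : derivative R' (PowerSeries.map f F) *
      invOfUnit (derivative R' (PowerSeries.map f F)) 1 = 1 :=
    mul_invOfUnit _ _ (constantCoeff_derivative _ h')
  exact left_inv_eq_right_inv e1 e2

theorem ser_map (f : R →+* R') (F : PowerSeries R) (h : coeff 1 F = 1) (j : ℕ) :
    PowerSeries.map f (ser F j) = ser (PowerSeries.map f F) j := by
  unfold ser
  rw [map_mul, map_pow, inv_map f F h]

theorem aa_map (f : R →+* R') (F : PowerSeries R) (h : coeff 1 F = 1) (j m : ℕ) :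
    f (aa F j m) = aa (PowerSeries.map f F) j m := by
  unfold aa
  rw [← ser_map f F h, coeff_map]

theorem bb_map (f : R →+* R') (F : PowerSeries R) (k m : ℕ) :
    f (bb F k m) = bb (PowerSeries.map f F) k m := by
  unfold bb
  rw [← map_pow, coeff_map]

theorem sol_spec (h : S_SOL) (R : Type) [CommRing R] [Algebra ℚ R] (N : ℕ) (p q : R) (hN : 2 ≤ N) :
    IsSol N p q (sol N p q) :=
  Classical.epsilon_spec (h R N p q hN).exists

theorem sol_map (h : S_SOL) [Algebra ℚ R] [Algebra ℚ R'] (f : R →+* R') (N : ℕ) (p q : R)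
    (hN : 2 ≤ N) : PowerSeries.map f (sol N p q) = sol N (f p) (f q) :=
  (h R' N (f p) (f q) hN).unique (isSol_map f N p q _ (sol_spec h R N p q hN))
    (sol_spec h R' N (f p) (f q) hN)

/-- functoriality of the coefficients -/
theorem coeff_sol_map (h : S_SOL) [Algebra ℚ R] [Algebra ℚ R'] (f : R →+* R') (N : ℕ) (p q : R)
    (hN : 2 ≤ N) (j m : ℕ) : f (aa (sol N p q) j m) = aa (sol N (f p) (f q)) j m ∧
      f (bb (sol N p q) j m) = bb (sol N (f p) (f q)) j m := by
  rw [aa_map f _ (sol_spec h R N p q hN).2.1, bb_map, sol_map h f N p q hN]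
  exact ⟨rfl, rfl⟩

theorem poly_all (h : S_SOL) : S_POLY := by
  intro N j m hN
  have key : ∀ p q : ℂ,
      MvPolynomial.eval ![p, q] (aa (sol N (MvPolynomial.X 0 : MvPolynomial (Fin 2) ℂ)
        (MvPolynomial.X 1)) j m) = aa (sol N p q) j m ∧
      MvPolynomial.eval ![p, q] (bb (sol N (MvPolynomial.X 0 : MvPolynomial (Fin 2) ℂ)
        (MvPolynomial.X 1)) j m) = bb (sol N p q) j m := by
    intro p q
    have h1 := coeff_sol_map h (MvPolynomial.eval ![p, q]) N
      (MvPolynomial.X 0 : MvPolynomial (Fin 2) ℂ) (MvPolynomial.X 1) hN j m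
    rw [MvPolynomial.eval_X, MvPolynomial.eval_X] at h1
    exact h1
  exact ⟨⟨_, fun p q => (key p q).1.symm⟩, ⟨_, fun p q => (key p q).2.symm⟩⟩

theorem bar_all (h : S_SOL) : S_BAR := by
  intro N j m p q hN
  have h1 := coeff_sol_map h (starRingEnd ℂ) N p q hN j m
  exact ⟨h1.1.symm, h1.2.symm⟩

end Pool.Agent.Y50.LC
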