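import Pool.Agent.Y300.LC.Stm

/-!
Rational functions of an integer, and a count.
-/

set_option autoImplicit false

open Finset Polynomial

namespace Pool.Agent.Y50.LC

open Pool.Agent.Y300.LC

theorem all_zero {S : Set ℕ} (hS : S.Infinite) (f : ℂ → ℂ) (P : ℂ[X])
    (hP : ∀ x, P.eval x = f x) (h : ∀ m ∈ S, f (m : ℂ) = 0) (x : ℂ) : f x = 0 := by
  have h0 : P = 0 := by
    refine Polynomial.eq_zero_of_infinite_isRoot P ?_
    refine Set.Infinite.mono ?_ (hS.image (f := fun m : ℕ => (m : ℂ))
      (fun a _ b _ hab => Nat.cast_injective hab))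
    rintro _ ⟨m, hm, rfl⟩
    show P.eval (m : ℂ) = 0
    rw [hP, h m hm]
  rw [← hP, h0, eval_zero]

theorem ne_U {N m : ℕ} (h : 4 * N < m) : (m : ℂ) - N ≠ 0 := by
  rw [sub_ne_zero]
  intro h1
  have : m = N := by exact_mod_cast h1
  omega

theorem ne_V {N m : ℕ} (h : 4 * N < m) : (m : ℂ) - N + 1 ≠ 0 := by
  intro h1
  have h2 : ((m + 1 : ℕ) : ℂ) = (N : ℂ) := by
    push_cast
    linear_combination h1
  have : m + 1 = N := by exact_mod_cast h2
  omega

theorem ne_Z (m : ℕ) : (m : ℂ) + 1 ≠ 0 := Nat.cast_add_one_ne_zero m

theorem rat_all : S_RAT := by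
  intro N S hN hS hm
  -- nonzero constants
  have n1 : (N : ℂ) + 1 ≠ 0 := Nat.cast_add_one_ne_zero N
  have n0 : (N : ℂ) ≠ 0 := by
    have : N ≠ 0 := by omega
    exact_mod_cast this
  have nm : ∀ k : ℕ, k < 6 → (N : ℂ) - k ≠ 0 := by
    intro k hk
    rw [sub_ne_zero]
    intro h
    have : N = k := by exact_mod_cast h
    omega
  have nm1 : (N : ℂ) - 1 ≠ 0 := by simpa using nm 1 (by norm_num)
  have nm2 : (N : ℂ) - 2 ≠ 0 := by simpa using nm 2 (by norm_num)
  have nm3 : (N : ℂ) - 3 ≠ 0 := by simpa using nm 3 (by norm_num)
  refine ⟨?_, ?_, ?_, ?_, ?_, ?_, ?_, ?_⟩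
  · intro a b h
    have H := all_zero hS (fun x => a * (x - N + 1) + b * (x - N))
      (C a * (X - C (N : ℂ) + 1) + C b * (X - C (N : ℂ))) (by intro x; simp) (by
        intro m hmS
        have hU := ne_U (hm m hmS)
        have hV := ne_V (hm m hmS)
        have := h m hmS
        field_simp at this
        linear_combination this)
    have H1 := H N
    have H2 := H (N - 1)
    constructor
    · linear_combination H1
    · linear_combination -H2
  · intro a b c d h
    have H := all_zero hS (fun x => a * (x - N + 1) ^ 2 + b * (x - N) * (x - N + 1) +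
        c * (x - 1) * (x - N) + d * (x - 1) * (x - N) ^ 2)
      (C a * (X - C (N : ℂ) + 1) ^ 2 + C b * (X - C (N : ℂ)) * (X - C (N : ℂ) + 1) +
        C c * (X - 1) * (X - C (N : ℂ)) + C d * (X - 1) * (X - C (N : ℂ)) ^ 2)
      (by intro x; simp) (by
        intro m hmS
        have hU := ne_U (hm m hmS)
        have hV := ne_V (hm m hmS)
        have := h m hmS
        field_simp at this
        linear_combination this)
    have H1 := H N
    have H2 := H (N - 1)
    have H3 := H 1
    have H4 := H (N + 1)
    have ha : a = 0 := by linear_combination H1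
    have hb : b = 0 := by
      have : b * (((N : ℂ) - 1) * ((N : ℂ) - 2)) = 0 := by
        rw [ha] at H3
        linear_combination H3
      rcases mul_eq_zero.1 this with h | h
      · exact h
      · exact absurd h (mul_ne_zero nm1 nm2)
    rw [ha, hb] at H2 H4
    have h5 : c - d = 0 := by
      have : (c - d) * ((N : ℂ) - 2) = 0 := by linear_combination -H2
      exact (mul_eq_zero.1 this).resolve_right nm2
    have h6 : c + d = 0 := by
      have : (c + d) * (N : ℂ) = 0 := by linear_combination H4
      exact (mul_eq_zero.1 this).resolve_right n0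
    refine ⟨ha, hb, ?_, ?_⟩
    · linear_combination (h5 + h6) / 2
    · linear_combination (h6 - h5) / 2
  · intro a b c h
    have H := all_zero hS (fun x => a * (x + 1) * (x - N + 1) + b * (x - N) + c * (x - 1) * (x - N))
      (C a * (X + 1) * (X - C (N : ℂ) + 1) + C b * (X - C (N : ℂ)) + C c * (X - 1) * (X - C (N : ℂ)))
      (by intro x; simp) (by
        intro m hmS
        have hU := ne_U (hm m hmS)
        have hV := ne_V (hm m hmS)
        have hZ := ne_Z m
        have := h m hmS
        field_simp at this
        linear_combination this)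
    have H1 := H N
    have H2 := H 1
    have H3 := H 2
    have ha : a = 0 := by
      have : a * ((N : ℂ) + 1) = 0 := by linear_combination H1
      exact (mul_eq_zero.1 this).resolve_right n1
    rw [ha] at H2 H3
    have hb : b = 0 := by
      have : b * ((N : ℂ) - 1) = 0 := by linear_combination -H2
      exact (mul_eq_zero.1 this).resolve_right nm1
    rw [hb] at H3
    have hc : c = 0 := by
      have : c * ((N : ℂ) - 2) = 0 := by linear_combination -H3
      exact (mul_eq_zero.1 this).resolve_right nm2
    exact ⟨ha, hb, hc⟩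
  · intro a b c h
    have H := all_zero hS (fun x => a * (x + 1) * (x - N + 1) + b * (x + 1) * (x - N) + c * (x - N))
      (C a * (X + 1) * (X - C (N : ℂ) + 1) + C b * (X + 1) * (X - C (N : ℂ)) + C c * (X - C (N : ℂ)))
      (by intro x; simp) (by
        intro m hmS
        have hU := ne_U (hm m hmS)
        have hV := ne_V (hm m hmS)
        have hZ := ne_Z m
        have := h m hmS
        field_simp at this
        linear_combination this)
    have H1 := H N
    have H2 := H (-1)
    have H3 := H (N - 1)
    have ha : a = 0 := by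
      have : a * ((N : ℂ) + 1) = 0 := by linear_combination H1
      exact (mul_eq_zero.1 this).resolve_right n1
    have hc : c = 0 := by
      have : c * ((N : ℂ) + 1) = 0 := by linear_combination -H2
      exact (mul_eq_zero.1 this).resolve_right n1
    rw [ha, hc] at H3
    have hb : b = 0 := by
      have : b * (N : ℂ) = 0 := by linear_combination -H3
      exact (mul_eq_zero.1 this).resolve_right n0
    exact ⟨ha, hb, hc⟩
  · intro a b c h
    have H := all_zero hS (fun x => a * (x - N + 1) + b * (x - 1) * (x - N + 1) +
        c * (x + 1) * (x - N))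
      (C a * (X - C (N : ℂ) + 1) + C b * (X - 1) * (X - C (N : ℂ) + 1) +
        C c * (X + 1) * (X - C (N : ℂ)))
      (by intro x; simp) (by
        intro m hmS
        have hU := ne_U (hm m hmS)
        have hV := ne_V (hm m hmS)
        have hZ := ne_Z m
        have := h m hmS
        field_simp at this
        linear_combination this)
    have H1 := H (N - 1)
    have H2 := H 1
    have H3 := H 2
    have hc : c = 0 := by
      have : c * (N : ℂ) = 0 := by linear_combination -H1
      exact (mul_eq_zero.1 this).resolve_right n0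
    rw [hc] at H2 H3
    have ha : a = 0 := by
      have : a * ((N : ℂ) - 2) = 0 := by linear_combination -H2
      exact (mul_eq_zero.1 this).resolve_right nm2
    rw [ha] at H3
    have hb : b = 0 := by
      have : b * ((N : ℂ) - 3) = 0 := by linear_combination -H3
      exact (mul_eq_zero.1 this).resolve_right nm3
    exact ⟨ha, hb, hc⟩
  · intro a b c h
    have H := all_zero hS (fun x => a * (x - N) + b * (x - 2) * (x - N) + c * (x + 1))
      (C a * (X - C (N : ℂ)) + C b * (X - C 2) * (X - C (N : ℂ)) + C c * (X + 1))
      (by intro x; simp) (by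
        intro m hmS
        have hU := ne_U (hm m hmS)
        have hZ := ne_Z m
        have := h m hmS
        field_simp at this
        linear_combination this)
    have H1 := H N
    have H2 := H 2
    have H3 := H 1
    have hc : c = 0 := by
      have : c * ((N : ℂ) + 1) = 0 := by linear_combination H1
      exact (mul_eq_zero.1 this).resolve_right n1
    rw [hc] at H2 H3
    have ha : a = 0 := by
      have : a * ((N : ℂ) - 2) = 0 := by linear_combination -H2
      exact (mul_eq_zero.1 this).resolve_right nm2
    rw [ha] at H3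
    have hb : b = 0 := by
      have : b * ((N : ℂ) - 1) = 0 := by linear_combination H3
      exact (mul_eq_zero.1 this).resolve_right nm1
    exact ⟨ha, hb, hc⟩
  · intro a b c h
    have H := all_zero hS (fun x => a * (x - N) + b * (x + 1) + c * ((x - 3) * (x - 2 - N)))
      (C a * (X - C (N : ℂ)) + C b * (X + 1) + C c * ((X - C 3) * (X - C 2 - C (N : ℂ))))
      (by intro x; simp) (by
        intro m hmS
        have hU := ne_U (hm m hmS)
        have hZ := ne_Z m
        have := h m hmS
        field_simp at this
        linear_combination this)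
    have H1 := H N
    have H2 := H (N + 2)
    have H3 := H 3
    have hb : b = 0 := by
      have : b * (((N : ℂ) - 1) * ((N : ℂ) + 1)) = 0 := by
        linear_combination ((N : ℂ) - 3) * H2 + 2 * H3
      exact (mul_eq_zero.1 this).resolve_right (mul_ne_zero nm1 n1)
    rw [hb] at H1 H2
    have ha : a = 0 := by linear_combination H2 / 2
    rw [ha] at H1
    have hc : c = 0 := by
      have : c * ((N : ℂ) - 3) = 0 := by linear_combination -H1 / 2
      exact (mul_eq_zero.1 this).resolve_right nm3
    exact ⟨ha, hb, hc⟩
  · intro a b c h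
    have H := all_zero hS (fun x => a * (x - N) * (x - N + 1) + b * (x + 1) * (x - N + 1) +
        c * (x - N) ^ 2)
      (C a * (X - C (N : ℂ)) * (X - C (N : ℂ) + 1) + C b * (X + 1) * (X - C (N : ℂ) + 1) +
        C c * (X - C (N : ℂ)) ^ 2)
      (by intro x; simp) (by
        intro m hmS
        have hU := ne_U (hm m hmS)
        have hV := ne_V (hm m hmS)
        have hZ := ne_Z m
        have := h m hmS
        field_simp at this
        linear_combination this)
    have H1 := H N
    have H2 := H (N - 1)
    have H3 := H (N + 1)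
    have hb : b = 0 := by
      have : b * ((N : ℂ) + 1) = 0 := by linear_combination H1
      exact (mul_eq_zero.1 this).resolve_right n1
    have hc : c = 0 := by linear_combination H2
    rw [hb, hc] at H3
    have ha : a = 0 := by linear_combination H3 / 2
    exact ⟨ha, hb, hc⟩

/-- the exponents with `k` positive -/
def K (N : ℕ) : Finset (ℕ × ℕ) := (J N).filter fun x => 1 ≤ x.2

theorem mem_K {N : ℕ} {x : ℕ × ℕ} : x ∈ K N ↔ 1 ≤ x.2 ∧ x.1 + x.2 ≤ N + 1 := by
  simp only [K, J, mem_filter, mem_product, mem_range]
  omega

theorem card_K (N : ℕ) : (K N).card * 2 = (N + 2) * (N + 1) := by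
  have h1 : (K N).card = ((range (N + 2)).sigma fun j => Icc 1 (N + 1 - j)).card := by
    refine Finset.card_nbij' (fun x => (⟨x.1, x.2⟩ : (_ : ℕ) × ℕ)) (fun y => (y.1, y.2)) ?_ ?_ ?_ ?_
    · intro x hx
      have hx' := mem_K.1 hx
      simp only [coe_sigma, Set.mem_sigma_iff, mem_coe, mem_range, mem_Icc]
      omega
    · intro y hy
      simp only [coe_sigma, Set.mem_sigma_iff, mem_coe, mem_range, mem_Icc] at hy
      refine mem_K.2 ?_
      simp only
      omega
    · intro x _
      rfl
    · intro y _
      rfl
  rw [h1, card_sigma]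
  have h2 : ∑ j ∈ range (N + 2), (Icc 1 (N + 1 - j)).card = ∑ j ∈ range (N + 2), j := by
    rw [← sum_range_reflect]
    refine sum_congr rfl fun j hj => ?_
    have := mem_range.1 hj
    rw [Nat.card_Icc]
    omega
  rw [h2, sum_range_id_mul_two]
  rfl

theorem card_all : S_CARD := by
  intro N hN
  have e1 : If N = insert (1, 0) ((K N).erase (N, 1)) := by
    ext ⟨j, k⟩
    simp only [If, J, mem_filter, mem_product, mem_range, mem_insert, mem_erase, mem_K,
      Prod.mk.injEq, ne_eq]
    omega
  have e2 : Ig N = (K N).erase (N - 1, 1) := by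
    ext ⟨j, k⟩
    simp only [Ig, J, mem_filter, mem_product, mem_range, mem_erase, mem_K, Prod.mk.injEq, ne_eq]
    omega
  have m1 : (N, 1) ∈ K N := mem_K.2 ⟨le_rfl, le_rfl⟩
  have m2 : (N - 1, 1) ∈ K N := mem_K.2 ⟨le_rfl, by simp only; omega⟩
  have m3 : ((1, 0) : ℕ × ℕ) ∉ (K N).erase (N, 1) := by
    intro h
    have := (mem_K.1 (mem_of_mem_erase h)).1
    simp at this
  have hc := card_K N
  have hpos : 0 < (K N).card := card_pos.2 ⟨_, m1⟩
  rw [e1, e2, card_insert_of_notMem m3, card_erase_of_mem m1, card_erase_of_mem m2]
  have h3 : (N + 2) * (N + 1) = N ^ 2 + 3 * N + 2 := by ring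
  omega

end Pool.Agent.Y50.LC
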